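import Pool.Agent.H61.HB.Stmts4
import Pool.Agent.H40.HB.WEN

/-!
Project HB, row ENW (weighted energy of `v - A`).
-/

set_option autoImplicit false

namespace HB

open Filter Topology Set

theorem enw_tht (ν : ℝ) (n : ℕ) (t : ℝ) :
    HasDerivAt (fun r => tht ν n r) (-(ν * (n : ℝ) ^ 8) * tht ν n t) t := by
  unfold tht
  have h := ((hasDerivAt_id t).const_mul (-(ν * (n : ℝ) ^ 8))).exp
  refine h.congr_deriv ?_
  simp only [id, mul_one]
  ring

theorem enw_apx (ν : ℝ) (p : V) (n : ℕ) (j : Fin 2) (k : Z2) (t : ℝ) :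
    HasDerivAt (fun r => apx ν p n (tht ν n r) j k)
      (-((ν * sq k ^ 2 : ℝ) : ℂ) * apx ν p n (tht ν n t) j k + frc ν p n (tht ν n t) j k) t := by
  have h0 := enw_tht ν n t
  have h1 := ((h0.pow 2).ofReal_comp).mul_const (p j k)
  have h2 := ((h0.const_mul ((n : ℝ) ^ 3)).ofReal_comp).mul_const (osc ν p ((n : ℤ) ^ 2) j k)
  have h := h1.add h2
  refine h.congr_deriv ?_
  simp only [apx, frc]
  push_cast
  ring

/-- **ENW** -/
theorem enw_thm (hCTA : CTAStmt) (hCON : CONStmt) (hADC : ADCStmt) (hMMB : MMBStmt) :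
    ENWStmt := by
  intro ν s T M p n v ω hν hs hT hM hp hv hω j t ht
  obtain ⟨c1, -, c3, -⟩ := hCTA.2 ν s T M p n v hs hM hp hv
  have hcgv : Cts 0 T (fun t => adv (v t) (v t)) :=
    cts_mono hMMB (by linarith) (hADC s T v hs hv.cts)
  have hcfr : Cts 0 T (fun t => frc ν p n (tht ν n t)) := cts_mono hMMB (by norm_num) c3
  have hm1 : ∀ k, (√(ω k)) ^ 2 = ω k := fun k => Real.sq_sqrt (hω k).1
  have hm : ∀ k, (√(ω k)) ^ 2 ≤ 1 := fun k => by rw [hm1]; exact (hω k).2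
  have hf2 : CtsS 2 T (fun r => mlt (fun k => √(ω k)) (v r j - apx ν p n (tht ν n r) j)) :=
    ctsS_mlt hMMB hm (ctsS_comp hMMB c1 j)
  have hg0 : CtsS 0 T (fun r => mlt (fun k => √(ω k))
      (adv (v r) (v r) j + frc ν p n (tht ν n r) j)) :=
    ctsS_mlt hMMB hm (ctsS_add hMMB (ctsS_comp hMMB hcgv j) (ctsS_comp hMMB hcfr j))
  have hder : ∀ k, ∀ t ∈ Icc 0 T, HasDerivWithinAt
      (fun r => mlt (fun k => √(ω k)) (v r j - apx ν p n (tht ν n r) j) k)
      (-((ν * sq k ^ 2 : ℝ) : ℂ) *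
          mlt (fun k => √(ω k)) (v t j - apx ν p n (tht ν n t) j) k -
        mlt (fun k => √(ω k)) (adv (v t) (v t) j + frc ν p n (tht ν n t) j) k) (Icc 0 T) t := by
    intro k t ht
    have h := ((hv.eqn j k t ht).sub ((enw_apx ν p n j k t).hasDerivWithinAt)).const_mul
      ((√(ω k) : ℝ) : ℂ)
    refine (h.congr_deriv ?_)
    simp only [mlt, Pi.sub_apply, Pi.add_apply]
    ring
  have key := energy_gen hCON hMMB hν hT hf2 hg0 hder t ht
  have e1 : (fun r => ∑' k, ‖mlt (fun k => √(ω k)) (v r j - apx ν p n (tht ν n r) j) k‖ ^ 2) =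
      fun r => ∑' k, ω k * ‖v r j k - apx ν p n (tht ν n r) j k‖ ^ 2 := by
    funext r
    refine tsum_congr fun k => ?_
    rw [norm_mlt, hm1]
    rfl
  have e2 : (∑' k, (-2 * ν * (sq k ^ 2 *
      ‖mlt (fun k => √(ω k)) (v t j - apx ν p n (tht ν n t) j) k‖ ^ 2) -
      2 * ((starRingEnd ℂ) (mlt (fun k => √(ω k)) (v t j - apx ν p n (tht ν n t) j) k) *
        mlt (fun k => √(ω k)) (adv (v t) (v t) j + frc ν p n (tht ν n t) j) k).re)) =
      ∑' k, ω k * (-2 * ν * sq k ^ 2 * ‖v t j k - apx ν p n (tht ν n t) j k‖ ^ 2 -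
        2 * ((starRingEnd ℂ) (v t j k - apx ν p n (tht ν n t) j k) *
          (adv (v t) (v t) j k + frc ν p n (tht ν n t) j k)).re) := by
    refine tsum_congr fun k => ?_
    rw [norm_mlt, hm1]
    have e3 : (starRingEnd ℂ) (mlt (fun k => √(ω k)) (v t j - apx ν p n (tht ν n t) j) k) *
        mlt (fun k => √(ω k)) (adv (v t) (v t) j + frc ν p n (tht ν n t) j) k =
        ((ω k : ℝ) : ℂ) * ((starRingEnd ℂ) (v t j k - apx ν p n (tht ν n t) j k) *
          (adv (v t) (v t) j k + frc ν p n (tht ν n t) j k)) := by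
      simp only [mlt, Pi.sub_apply, Pi.add_apply, map_mul, Complex.conj_ofReal]
      have e4 : ((√(ω k) : ℝ) : ℂ) * ((√(ω k) : ℝ) : ℂ) = ((ω k : ℝ) : ℂ) := by
        rw [← Complex.ofReal_mul, Real.mul_self_sqrt (hω k).1]
      linear_combination ((starRingEnd ℂ) (v t j k - apx ν p n (tht ν n t) j k) *
          (adv (v t) (v t) j k + frc ν p n (tht ν n t) j k)) * e4
    rw [e3, Complex.re_ofReal_mul]
    simp only [Pi.sub_apply]
    ring
  rw [e1, e2] at key
  exact key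

end HB
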